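import Mathlib

/-!
# Witness sets blocking all Gabriel edges: `w(n) = n - 1`

`D p q` is the open disk with diameter `pq`. A finite set `W` blocks the finite set `P` if every
disk `D p q` with `p ≠ q` in `P` contains a point of `W`. `minWitness P` is the least size of a
blocking set, and `w n` the largest value of `minWitness P` over all `n`-point sets `P`.

The bound `n - 1` is attained by `n` collinear points: the disks of consecutive points are
pairwise disjoint.
-/

set_option autoImplicit false

open Finset Filter Topology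

namespace Pool.Agent.Results.MP_edf47b_co.ExactValue

/-- The Euclidean plane. -/
abbrev Plane : Type := EuclideanSpace ℝ (Fin 2)

/-- The open disk whose diameter is the segment `pq`. -/
def D (p q : Plane) : Set Plane := Metric.ball (midpoint ℝ p q) (dist p q / 2)

/-- `W` is a blocking set of witnesses for the Gabriel graph of `P`. -/
def Blocks (W P : Finset Plane) : Prop :=
  ∀ p ∈ P, ∀ q ∈ P, p ≠ q → ∃ x ∈ W, x ∈ D p q

/-- The least size of a blocking set of witnesses for the Gabriel graph of `P`. -/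
noncomputable def minWitness (P : Finset Plane) : ℕ :=
  sInf {k : ℕ | ∃ W : Finset Plane, Blocks W P ∧ W.card = k}

/-- The largest number of witnesses that an `n`-point set of the plane needs. -/
noncomputable def w (n : ℕ) : ℕ :=
  sSup {k : ℕ | ∃ P : Finset Plane, P.card = n ∧ minWitness P = k}

/-- Thales: a point is in the open disk with diameter `pq` iff it sees `pq` at an obtuse angle. -/
theorem mem_D (p q x : Plane) : x ∈ D p q ↔ inner ℝ (x - p) (x - q) < 0 := by
  unfold D
  rw [Metric.mem_ball, dist_eq_norm]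
  have h1 : x - midpoint ℝ p q = (1 / 2 : ℝ) • ((x - p) + (x - q)) := by
    rw [midpoint_eq_smul_add, invOf_eq_inv]
    module
  have h2 : dist p q = ‖(x - p) - (x - q)‖ := by
    rw [dist_comm, dist_eq_norm]
    congr 1
    abel
  rw [h1, h2, norm_smul]
  have h3 : ‖(x - p) + (x - q)‖ ^ 2 = ‖x - p‖ ^ 2 + 2 * inner ℝ (x - p) (x - q) + ‖x - q‖ ^ 2 :=
    norm_add_sq_real _ _
  have h4 : ‖(x - p) - (x - q)‖ ^ 2 = ‖x - p‖ ^ 2 - 2 * inner ℝ (x - p) (x - q) + ‖x - q‖ ^ 2 :=
    norm_sub_sq_real _ _
  have h5 : ‖(1 / 2 : ℝ)‖ = 1 / 2 := by norm_num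
  rw [h5]
  have h6 : (1 / 2 * ‖(x - p) + (x - q)‖ < ‖(x - p) - (x - q)‖ / 2) ↔
      ‖(x - p) + (x - q)‖ < ‖(x - p) - (x - q)‖ := by
    constructor <;> intro h <;> linarith
  rw [h6]
  rw [← sq_lt_sq₀ (norm_nonneg _) (norm_nonneg _), h3, h4]
  constructor <;> intro h <;> linarith

/-- Every `n`-point set has a blocking set with at most `n - 1` points. -/
theorem exists_blocking (P : Finset Plane) :
    ∃ W : Finset Plane, Blocks W P ∧ W.card ≤ P.card - 1 := by
  classical
  rcases P.eq_empty_or_nonempty with rfl | hP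
  · exact ⟨∅, by intro p hp; simp at hp, by simp⟩
  -- a direction that is not orthogonal to any difference
  obtain ⟨t, ht⟩ := Infinite.exists_notMem_finset
    ((P ×ˢ P).image (fun z : Plane × Plane => -(z.2 0 - z.1 0) / (z.2 1 - z.1 1)))
  have hne : ∀ p ∈ P, ∀ q ∈ P, p ≠ q → (q 0 - p 0) + t * (q 1 - p 1) ≠ 0 := by
    intro p hp q hq hpq h0
    by_cases h1 : q 1 - p 1 = 0
    · rw [h1, mul_zero, add_zero] at h0
      apply hpq
      ext i
      fin_cases i
      · change p 0 = q 0
        linarith
      · change p 1 = q 1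
        linarith
    · apply ht
      rw [Finset.mem_image]
      refine ⟨(p, q), Finset.mem_product.2 ⟨hp, hq⟩, ?_⟩
      change -(q 0 - p 0) / (q 1 - p 1) = t
      rw [div_eq_iff h1]
      linarith
  let u : Plane := !₂[1, t]
  let φ : Plane → ℝ := fun p => p 0 + t * p 1
  have hin : ∀ p q : Plane, inner ℝ u (q - p) = φ q - φ p := by
    intro p q
    simp only [u, φ, PiLp.inner_apply, Fin.sum_univ_two, PiLp.sub_apply]
    simp
    ring
  obtain ⟨m, hm, hmax⟩ := P.exists_max_image φ hP
  have hev : ∀ᶠ ε in 𝓝[>] (0 : ℝ), ∀ p ∈ P, ∀ q ∈ P, φ p < φ q → ε * ‖u‖ ^ 2 < φ q - φ p := by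
    rw [Filter.eventually_all_finset]
    intro p _
    rw [Filter.eventually_all_finset]
    intro q _
    by_cases h : φ p < φ q
    · have h1 : Tendsto (fun ε : ℝ => ε * ‖u‖ ^ 2) (𝓝[>] 0) (𝓝 (0 * ‖u‖ ^ 2)) :=
        (tendsto_id.mono_left nhdsWithin_le_nhds).mul_const _
      rw [zero_mul] at h1
      filter_upwards [h1.eventually_lt_const (sub_pos.2 h)] with ε hε _
      exact hε
    · exact Eventually.of_forall fun ε h' => absurd h' h
  obtain ⟨ε, hε, hε0⟩ := (hev.and self_mem_nhdsWithin).exists
  have hε0 : 0 < ε := hε0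
  refine ⟨(P.erase m).image (fun p => p + ε • u), ?_, ?_⟩
  · -- blocking
    have key : ∀ p ∈ P, ∀ q ∈ P, φ p < φ q →
        ∃ x ∈ (P.erase m).image (fun p => p + ε • u), inner ℝ (x - p) (x - q) < 0 := by
      intro p hp q hq hlt
      refine ⟨p + ε • u, Finset.mem_image.2 ⟨p, Finset.mem_erase.2 ⟨?_, hp⟩, rfl⟩, ?_⟩
      · rintro rfl
        exact absurd (hmax q hq) (not_le.2 hlt)
      · have e1 : p + ε • u - p = ε • u := by abel
        have e2 : p + ε • u - q = ε • u - (q - p) := by abel
        rw [e1, e2, inner_sub_right, inner_smul_left, inner_smul_right, inner_smul_left, hin,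
          real_inner_self_eq_norm_sq]
        simp only [conj_trivial]
        have h3 := hε p hp q hq hlt
        have h4 : ε * (ε * ‖u‖ ^ 2) < ε * (φ q - φ p) := mul_lt_mul_of_pos_left h3 hε0
        linarith
    intro p hp q hq hpq
    have h0 : φ p ≠ φ q := by
      intro h
      apply hne p hp q hq hpq
      have h' : p 0 + t * p 1 = q 0 + t * q 1 := h
      linarith
    rcases lt_or_gt_of_ne h0 with h | h
    · obtain ⟨x, hx, hx'⟩ := key p hp q hq h
      exact ⟨x, hx, (mem_D p q x).2 hx'⟩
    · obtain ⟨x, hx, hx'⟩ := key q hq p hp h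
      refine ⟨x, hx, (mem_D p q x).2 ?_⟩
      rw [real_inner_comm]
      exact hx'
  · refine Finset.card_image_le.trans ?_
    rw [Finset.card_erase_of_mem hm]

/-- The `i`-th of the collinear points. -/
noncomputable def pt (i : ℕ) : Plane := !₂[(i : ℝ), 0]

theorem pt_injective : Function.Injective pt := by
  intro i j h
  have h1 : (pt i) 0 = (pt j) 0 := by rw [h]
  have h2 : (i : ℝ) = j := by simpa [pt] using h1
  exact_mod_cast h2

/-- `n` collinear points. -/
noncomputable def line (n : ℕ) : Finset Plane :=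
  (Finset.range n).map ⟨pt, pt_injective⟩

/-- A witness in the disk of two consecutive collinear points has its first coordinate strictly
between theirs. -/
theorem between (i : ℕ) (x : Plane) (h : x ∈ D (pt i) (pt (i + 1))) :
    (i : ℝ) < x 0 ∧ x 0 < i + 1 := by
  rw [mem_D] at h
  have h1 : inner ℝ (x - pt i) (x - pt (i + 1)) =
      (x 0 - i) * (x 0 - (i + 1)) + x 1 * x 1 := by
    simp only [PiLp.inner_apply, Fin.sum_univ_two, PiLp.sub_apply, pt]
    simp
    ring
  rw [h1] at h
  have h2 : (x 0 - i) * (x 0 - (i + 1)) < 0 := by nlinarith [mul_self_nonneg (x 1)]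
  constructor
  · by_contra hc
    push Not at hc
    nlinarith
  · by_contra hc
    push Not at hc
    nlinarith

/-- A blocking set of `n` collinear points has at least `n - 1` points. -/
theorem line_needs (n : ℕ) (W : Finset Plane) (hW : Blocks W (line n)) : n - 1 ≤ W.card := by
  classical
  have h : ∀ i : Fin (n - 1), ∃ x ∈ W, ((i : ℕ) : ℝ) < x 0 ∧ x 0 < (i : ℕ) + 1 := by
    intro i
    have hi := i.2
    obtain ⟨x, hx, hx'⟩ := hW (pt i)
      (Finset.mem_map.2 ⟨i, Finset.mem_range.2 (by omega), rfl⟩) (pt (i + 1))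
      (Finset.mem_map.2 ⟨i + 1, Finset.mem_range.2 (by omega), rfl⟩)
      (fun h => by have := pt_injective h; omega)
    exact ⟨x, hx, between i x hx'⟩
  choose f hf hf1 hf2 using h
  have hinj : Function.Injective f := by
    intro i j hij
    have a1 := hf1 i
    have a2 := hf2 i
    have b1 := hf1 j
    have b2 := hf2 j
    rw [hij] at a1 a2
    have c1 : ((i : ℕ) : ℝ) < (j : ℕ) + 1 := a1.trans b2
    have c2 : ((j : ℕ) : ℝ) < (i : ℕ) + 1 := b1.trans a2
    have d1 : (i : ℕ) < (j : ℕ) + 1 := by exact_mod_cast c1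
    have d2 : (j : ℕ) < (i : ℕ) + 1 := by exact_mod_cast c2
    apply Fin.ext
    omega
  calc n - 1 = (Finset.univ : Finset (Fin (n - 1))).card := by simp
    _ ≤ W.card := Finset.card_le_card_of_injOn f (fun i _ => hf i) hinj.injOn

theorem minWitness_le (P : Finset Plane) : minWitness P ≤ P.card - 1 := by
  obtain ⟨W, hW, hc⟩ := exists_blocking P
  have h : minWitness P ≤ W.card := Nat.sInf_le ⟨W, hW, rfl⟩
  exact h.trans hc

theorem minWitness_line (n : ℕ) : minWitness (line n) = n - 1 := by
  apply le_antisymm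
  · have := minWitness_le (line n)
    simpa [line] using this
  · obtain ⟨W, hW, -⟩ := exists_blocking (line n)
    have hne : {k : ℕ | ∃ W : Finset Plane, Blocks W (line n) ∧ W.card = k}.Nonempty :=
      ⟨_, W, hW, rfl⟩
    obtain ⟨W', hW', hc⟩ := Nat.sInf_mem hne
    unfold minWitness
    rw [← hc]
    exact line_needs n W' hW'

/-- The largest number of witnesses needed to block the Gabriel graph of `n` points of the plane
is exactly `n - 1`; it is attained by `n` points on a line. -/
theorem result : ∀ n : ℕ, 1 ≤ n → w n = n - 1 ∧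
    ∃ P : Finset Plane, P.card = n ∧ Collinear ℝ (P : Set Plane) ∧ minWitness P = n - 1 := by
  intro n _
  have hcard : (line n).card = n := by simp [line]
  have hbdd : ∀ k ∈ {k : ℕ | ∃ P : Finset Plane, P.card = n ∧ minWitness P = k}, k ≤ n - 1 := by
    rintro k ⟨P, hP, rfl⟩
    rw [← hP]
    exact minWitness_le P
  refine ⟨le_antisymm ?_ ?_, line n, hcard, ?_, minWitness_line n⟩
  · exact csSup_le ⟨_, line n, hcard, rfl⟩ hbdd
  · exact le_csSup ⟨n - 1, hbdd⟩ ⟨line n, hcard, minWitness_line n⟩
  · rw [collinear_iff_exists_forall_eq_smul_vadd]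
    refine ⟨pt 0, pt 1, ?_⟩
    intro p hp
    obtain ⟨i, -, rfl⟩ := Finset.mem_map.1 (Finset.mem_coe.1 hp)
    refine ⟨i, ?_⟩
    change pt i = (i : ℝ) • pt 1 +ᵥ pt 0
    ext j
    fin_cases j <;> simp [pt]

end Pool.Agent.Results.MP_edf47b_co.ExactValue
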